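import Pool.Agent.Lib.MP_828627_an.Defs
import Pool.Agent.Lib.MP_828627_an.Bidual

namespace Pool.Agent.Results.MP_828627_an.BidualNotPlichko

open Pool.Agent.Lib.MP_828627_an

/-- Over the real and over the complex field there is a Banach space that is not Plichko
while its bidual is Plichko. -/
theorem result (𝕜 : Type) [RCLike 𝕜] :
    ∃ (X : Type) (_ : NormedAddCommGroup X) (_ : NormedSpace 𝕜 X),
      CompleteSpace X ∧ ¬ IsPlichko 𝕜 X ∧ IsPlichko 𝕜 (StrongDual 𝕜 (StrongDual 𝕜 X)) :=
  main 𝕜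

end Pool.Agent.Results.MP_828627_an.BidualNotPlichko
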